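import Mathlib
import Pool.Agent.Lib.MP_fe925f_an.Final

/-!
# A non-Hilbertian infinite-dimensional Banach space `X` such that both `X` and `X*` embed
isometrically into `L¹[0,1]`

The space is `X = H ⊕ ℝ`, with `H` an infinite-dimensional Hilbert space and with the norm
`‖(h, t)‖ = (‖h‖² / 2 + t²) / √(‖h‖² + t²)`.
-/

set_option autoImplicit false

open MeasureTheory

namespace Pool.Agent.Results.MP_fe925f_an.Counterexample

universe u

/-- There is an infinite-dimensional real Banach space `X`, not linearly isometric to any inner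
product space, such that `X` and its dual are both linearly isometric to subspaces of
`L¹[0,1]`. -/
theorem result :
    ∃ (X : Type) (_ : NormedAddCommGroup X) (_ : NormedSpace ℝ X) (_ : CompleteSpace X),
      (¬ FiniteDimensional ℝ X) ∧
      (Nonempty (X →ₗᵢ[ℝ] Lp ℝ 1 ((volume : Measure ℝ).restrict (Set.Icc (0 : ℝ) 1)))) ∧
      (Nonempty (StrongDual ℝ X →ₗᵢ[ℝ]
        Lp ℝ 1 ((volume : Measure ℝ).restrict (Set.Icc (0 : ℝ) 1)))) ∧
      (∀ (H : Type u) [NormedAddCommGroup H] [InnerProductSpace ℝ H],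
        IsEmpty (X ≃ₗᵢ[ℝ] H)) :=
  ⟨Pool.Agent.Lib.MP_fe925f_an.XX, inferInstance, inferInstance, inferInstance,
    Pool.Agent.Lib.MP_fe925f_an.XX_infinite,
    ⟨Pool.Agent.Lib.MP_fe925f_an.embX⟩,
    ⟨Pool.Agent.Lib.MP_fe925f_an.embDual⟩,
    fun _ _ _ => ⟨fun e => Pool.Agent.Lib.MP_fe925f_an.XX_not_hilbert e⟩⟩

end Pool.Agent.Results.MP_fe925f_an.Counterexample
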